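import Mathlib

/-!
Links in the three sphere, closed surfaces with a product neighbourhood, and alternating
diagrams on them.
-/

namespace AltGenus562

open Set Topology

/-- The three sphere: the unit sphere of the Euclidean space `ℂ²`. -/
abbrev S3 : Type := Metric.sphere (0 : EuclideanSpace ℂ (Fin 2)) 1

/-- `L` is a (smooth, hence tame) link in the three sphere: a disjoint union of finitely many
(at least one) smoothly embedded circles.  The component `i` is parametrised by the smooth
immersion `γ i : ℝ → ℂ²`, which has period one, takes values in the unit sphere and is injective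
modulo the period; different components are disjoint. -/
def IsLink (L : Set S3) : Prop :=
  ∃ (m : ℕ) (γ : Fin m → ℝ → EuclideanSpace ℂ (Fin 2)), 0 < m ∧
    (∀ i, ContDiff ℝ ⊤ (γ i)) ∧ (∀ i t, deriv (γ i) t ≠ 0) ∧ (∀ i t, ‖γ i t‖ = 1) ∧
    (∀ i t, γ i (t + 1) = γ i t) ∧
    (∀ i j s t, γ i s = γ j t → i = j ∧ ∃ k : ℤ, t = s + k) ∧
    Subtype.val '' L = ⋃ i, Set.range (γ i)

/-- The product of commutators `[a₁,b₁] ⋯ [a_g,b_g]`. -/
def surfaceRelator (g : ℕ) : FreeGroup (Fin g × Bool) :=
  (List.ofFn fun i : Fin g => FreeGroup.of (i, false) * FreeGroup.of (i, true) *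
    (FreeGroup.of (i, false))⁻¹ * (FreeGroup.of (i, true))⁻¹).prod

/-- The surface group of genus `g`: generators `a_i, b_i`, one relation `∏ [a_i,b_i] = 1`. -/
abbrev SurfaceGroup (g : ℕ) : Type := PresentedGroup {surfaceRelator g}

/-- `S` is a closed connected orientable surface of genus `g`: a compact connected Hausdorff
space, locally homeomorphic to the plane, whose fundamental group is the surface group of
genus `g`. -/
structure IsClosedSurface (S : Type) [TopologicalSpace S] (g : ℕ) : Prop where
  t2 : T2Space S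
  compact : CompactSpace S
  connected : ConnectedSpace S
  chart : ∀ z : S, ∃ e : OpenPartialHomeomorph S (ℝ × ℝ), z ∈ e.source
  genus : ∀ z : S, Nonempty (FundamentalGroup S z ≃* SurfaceGroup g)

/-- `φ` embeds the product neighbourhood `S × [-1,1]` of a surface into the three sphere; the
surface itself is the image of `S × {0}`, and `S × (-1,1)` goes to an open set. -/
structure IsProductNbhd {S : Type} [TopologicalSpace S] (φ : S × Set.Icc (-1 : ℝ) 1 → S3) :
    Prop where
  cont : Continuous φ
  inj : Function.Injective φ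
  isOpen : IsOpen (φ '' {x | -1 < (x.2 : ℝ) ∧ (x.2 : ℝ) < 1})

/-- A link in `S × (-1,1)` given by parametrised closed curves `t ↦ (pr i t, ht i t)` of period
one, whose projection to `S` has only finitely many double points, all of them transverse. -/
structure Diagram (S : Type) [TopologicalSpace S] where
  /-- number of components -/
  m : ℕ
  /-- projection of the component `i` to the surface -/
  pr : Fin m → ℝ → S
  /-- height of the component `i` -/
  ht : Fin m → ℝ → ℝ
  cont_pr : ∀ i, Continuous (pr i)
  cont_ht : ∀ i, Continuous (ht i)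
  per_pr : ∀ i t, pr i (t + 1) = pr i t
  per_ht : ∀ i t, ht i (t + 1) = ht i t
  ht_mem : ∀ i t, -1 < ht i t ∧ ht i t < 1
  /-- the curves are embedded and pairwise disjoint -/
  inj : ∀ i j s t, pr i s = pr j t → ht i s = ht j t → i = j ∧ ∃ k : ℤ, t = s + k
  /-- there are finitely many double points -/
  finite : Set.Finite {z : S | ∃ i j s t, pr i s = z ∧ pr j t = z ∧ ¬ (i = j ∧ ∃ k : ℤ, t = s + k)}
  /-- near a simple point the projection is, in a chart of `S`, a piece of the first axis -/
  simple : ∀ i s, (∀ j t, pr j t = pr i s → i = j ∧ ∃ k : ℤ, t = s + k) →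
    ∃ e : OpenPartialHomeomorph S (ℝ × ℝ), pr i s ∈ e.source ∧ e (pr i s) = 0 ∧
      ∃ δ > 0, Set.InjOn (pr i) (Set.Ioo (s - δ) (s + δ)) ∧
        (∀ u ∈ Set.Ioo (s - δ) (s + δ), pr i u ∈ e.source ∧ (e (pr i u)).2 = 0) ∧
        (∀ k u, pr k u ∈ e.source → k = i ∧ ∃ a : ℤ, u + a ∈ Set.Ioo (s - δ) (s + δ)) ∧
        (∀ z ∈ e.source, (e z).2 = 0 → ∃ u, pr i u = z)
  /-- near a double point the projection consists of two arcs which are, in a chart of `S`,
  pieces of the two axes -/
  double : ∀ i j s t, pr i s = pr j t → ¬ (i = j ∧ ∃ k : ℤ, t = s + k) →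
    ∃ e : OpenPartialHomeomorph S (ℝ × ℝ), pr i s ∈ e.source ∧ e (pr i s) = 0 ∧
      ∃ δ > 0, Set.InjOn (pr i) (Set.Ioo (s - δ) (s + δ)) ∧
        Set.InjOn (pr j) (Set.Ioo (t - δ) (t + δ)) ∧
        (∀ u ∈ Set.Ioo (s - δ) (s + δ), pr i u ∈ e.source ∧ (e (pr i u)).2 = 0) ∧
        (∀ u ∈ Set.Ioo (t - δ) (t + δ), pr j u ∈ e.source ∧ (e (pr j u)).1 = 0) ∧
        (∀ k u, pr k u ∈ e.source →
          (k = i ∧ ∃ a : ℤ, u + a ∈ Set.Ioo (s - δ) (s + δ)) ∨
          (k = j ∧ ∃ a : ℤ, u + a ∈ Set.Ioo (t - δ) (t + δ))) ∧
        (∀ z ∈ e.source, (e z).1 = 0 ∨ (e z).2 = 0 → ∃ k u, pr k u = z)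

namespace Diagram

variable {S : Type} [TopologicalSpace S] (D : Diagram S)

/-- The parameters `(i,s)` and `(j,t)` describe the same point of the link. -/
def Same (i j : Fin D.m) (s t : ℝ) : Prop := i = j ∧ ∃ k : ℤ, t = s + k

/-- The projection of the link to the surface. -/
def curve : Set S := {z | ∃ i t, D.pr i t = z}

/-- The link in the thickened surface. -/
def carrier : Set (S × Set.Icc (-1 : ℝ) 1) := {x | ∃ i t, D.pr i t = x.1 ∧ D.ht i t = (x.2 : ℝ)}

/-- The component `i` runs at time `s` over a crossing, on the upper strand. -/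
def Over (i : Fin D.m) (s : ℝ) : Prop :=
  ∃ j t, D.pr j t = D.pr i s ∧ D.ht j t < D.ht i s

/-- The component `i` runs at time `s` through a crossing, on the lower strand. -/
def Under (i : Fin D.m) (s : ℝ) : Prop :=
  ∃ j t, D.pr j t = D.pr i s ∧ D.ht i s < D.ht j t

/-- The diagram is alternating: travelling along any component, over and under crossings
alternate. -/
def Alternating : Prop :=
  ∀ i s s', s < s' → (∀ u ∈ Set.Ioo s s', ¬ D.Over i u ∧ ¬ D.Under i u) →
    (D.Over i s → ¬ D.Over i s') ∧ (D.Under i s → ¬ D.Under i s')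

/-- The complement of the diagram in the surface is a disjoint union of open disks. -/
def Cellular : Prop :=
  ∀ z ∉ D.curve, Nonempty (connectedComponentIn D.curveᶜ z ≃ₜ ℝ × ℝ)

end Diagram

/-- `L` has an alternating diagram on the closed surface `φ (S × {0})` all of whose complementary
regions are open disks: some image of `L` under a homeomorphism of the three sphere lies in the
product neighbourhood and has such a projection.  -/
def HasAlternatingCellularDiagram {S : Type} [TopologicalSpace S]
    (φ : S × Set.Icc (-1 : ℝ) 1 → S3) (L : Set S3) : Prop :=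
  ∃ D : Diagram S, D.Alternating ∧ D.Cellular ∧ ∃ h : S3 ≃ₜ S3, h '' L = φ '' D.carrier

/-- The alternating genus of `L` is at least `N`: every closed orientable surface in the three
sphere (with a product neighbourhood) on which `L` has an alternating diagram whose complementary
regions are open disks has genus at least `N`.  Heegaard surfaces are such surfaces. -/
def AltGenusAtLeast (L : Set S3) (N : ℕ) : Prop :=
  ∀ (S : Type) [TopologicalSpace S] (g : ℕ), IsClosedSurface S g →
    ∀ φ : S × Set.Icc (-1 : ℝ) 1 → S3, IsProductNbhd φ →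
      HasAlternatingCellularDiagram φ L → N ≤ g

/-- The torus link `T(2n,2n)`: the points `(z,w)` of the sphere with `zw ∈ {c₁,…,c_n}`,
`c_k = k/(4n+4)`. -/
def torusLink (n : ℕ) : Set S3 :=
  {x | ∃ k : Fin n, x.1 0 * x.1 1 = (((k : ℕ) + 1 : ℝ) / (4 * n + 4) : ℝ)}

end AltGenus562
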