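import Pool.Agent.Helper562.AltG.Defs

noncomputable section

namespace AltGenus562

open Set Topology unitInterval

/-- `ce y = exp (2 π i y)`. -/
def ce (y : ℝ) : Circle := Circle.exp (2 * Real.pi * y)

/-- A dihedral local system on the subset `Y` of the plane. -/
structure Sys where
  Y : Set ℂ
  θ : ℂ → Circle
  F : ℂ × Circle → Circle
  cθ : ContinuousOn θ Y
  cF : ContinuousOn F {p | p.1 ∈ Y ∧ p.2 ^ 2 = θ p.1}
  anti : ∀ x ∈ Y, ∀ ζ : Circle, ζ ^ 2 = θ x → F (x, -ζ) = (F (x, ζ))⁻¹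

/-- `ζ` or `-ζ`. -/
def flip (ε : ℤˣ) (ζ : Circle) : Circle := if ε = 1 then ζ else -ζ

/-- A lift of a map `q : A → Y` to the covering determined by the system. -/
structure IsLift (Φ : Sys) {A : Type*} [TopologicalSpace A] (q : A → ℂ) (s : A → Circle)
    (y : A → ℝ) : Prop where
  cs : Continuous s
  cy : Continuous y
  sq : ∀ a, s a ^ 2 = Φ.θ (q a)
  val : ∀ a, ce (y a) = Φ.F (q a, s a)

/-- Transport along a path `p : I → Y`. -/
def Tr (Φ : Sys) (p : I → ℂ) (e e' : Circle × ℝ) : Prop :=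
  ∃ (s : I → Circle) (y : I → ℝ), IsLift Φ p s y ∧ (s 0, y 0) = e ∧ (s 1, y 1) = e'

/-- The restriction of `f` to the segment from `b` to `a`, as a path on the unit interval. -/
def seg (f : ℝ → ℂ) (b a : ℝ) : I → ℂ := fun τ => f (b + τ * (a - b))

open Set Topology unitInterval

open Set Topology unitInterval

/-- The double cover is nontrivial around the puncture `c`. -/
def NoSqrt (Φ : Sys) (c : ℂ) : Prop :=
  ∀ ε > 0, ¬ ∃ s : ℂ → Circle, ContinuousOn s (Metric.ball c ε \ {c}) ∧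
    ∀ x ∈ Metric.ball c ε \ {c}, s x ^ 2 = Φ.θ x

/-- Around the puncture `c` the function `F` has a real logarithm `g` on the double cover with
`g (x,ζ) + g (x,-ζ) = ρ`. -/
def LocLog (Φ : Sys) (c : ℂ) (ρ : ℤ) : Prop :=
  ∃ ε > 0, ∃ g : ℂ × Circle → ℝ,
    ContinuousOn g {p | p.1 ∈ Metric.ball c ε \ {c} ∧ p.2 ^ 2 = Φ.θ p.1} ∧
    ∀ x ∈ Metric.ball c ε \ {c}, ∀ ζ : Circle, ζ ^ 2 = Φ.θ x →
      ce (g (x, ζ)) = Φ.F (x, ζ) ∧ g (x, ζ) + g (x, -ζ) = ρ

/-- The open square of half side `δ`. -/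
abbrev Qbox (δ : ℝ) : Set (ℝ × ℝ) := Set.Ioo (-δ) δ ×ˢ Set.Ioo (-δ) δ

open Set Topology unitInterval

/-- Several anti-invariant functions on the same double cover. -/
structure NSys (n : ℕ) where
  Y : Set ℂ
  θ : ℂ → Circle
  F : Fin n → ℂ × Circle → Circle
  oY : IsOpen Y
  cθ : ContinuousOn θ Y
  cF : ∀ j, ContinuousOn (F j) {p | p.1 ∈ Y ∧ p.2 ^ 2 = θ p.1}
  anti : ∀ j, ∀ x ∈ Y, ∀ ζ : Circle, ζ ^ 2 = θ x → F j (x, -ζ) = (F j (x, ζ))⁻¹

/-- The system given by the integer combination `∏ F_j ^ r_j`. -/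
def NSys.comb {n : ℕ} (Ψ : NSys n) (r : Fin n → ℤ) : Sys where
  Y := Ψ.Y
  θ := Ψ.θ
  F := fun p => ∏ j, Ψ.F j p ^ r j
  cθ := Ψ.cθ
  cF := by
    refine continuousOn_finsetProd _ fun j _ => ?_
    exact (Ψ.cF j).zpow _
  anti := by
    intro x hx ζ hζ
    simp only [Ψ.anti _ x hx ζ hζ, inv_zpow, Finset.prod_inv_distrib]

/-- A real logarithm of `F` along `q`, anti-invariant under the deck transformation of the double
cover. -/
structure AntiLog (Φ : Sys) {S : Type*} [TopologicalSpace S] (q : S → ℂ) (f : S × Circle → ℝ) :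
    Prop where
  cont : ContinuousOn f {p | p.2 ^ 2 = Φ.θ (q p.1)}
  val : ∀ z (ζ : Circle), ζ ^ 2 = Φ.θ (q z) → ce (f (z, ζ)) = Φ.F (q z, ζ)
  anti : ∀ z (ζ : Circle), ζ ^ 2 = Φ.θ (q z) → f (z, -ζ) = -f (z, ζ)

/-- The loop `γ` is good: transport along it maps the base point to itself or to its opposite. -/
def Good (Φ : Sys) {S : Type*} [TopologicalSpace S] (q : S → ℂ) {z0 : S} (ζ0 : Circle) (y0 : ℝ)
    (γ : Path z0 z0) : Prop :=
  Tr Φ (fun t => q (γ t)) (ζ0, y0) (ζ0, y0) ∨ Tr Φ (fun t => q (γ t)) (ζ0, y0) (-ζ0, -y0)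

open Set Topology unitInterval

/-- The point with parameter `(i,s)` is a simple point of the projection. -/
def Diagram.Simple {S : Type} [TopologicalSpace S] (D : Diagram S) (i : Fin D.m) (s : ℝ) : Prop :=
  ∀ j t, D.pr j t = D.pr i s → i = j ∧ ∃ k : ℤ, t = s + k

/-- All data of the argument on the surface side. -/
structure Conf (S : Type) [TopologicalSpace S] where
  D : Diagram S
  Φ : Sys
  q : S × ℝ → ℂ
  fT : S × Circle → ℝ
  fB : S × Circle → ℝ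
  /-- the puncture to which the component `i` is mapped -/
  c : Fin D.m → ℂ
  /-- the weight of the component `i` -/
  ρ : Fin D.m → ℤ
  cq : Continuous q
  hT : AntiLog Φ (fun z => q (z, 1)) fT
  hB : AntiLog Φ (fun z => q (z, -1)) fB
  hY : ∀ z, ∀ h ∈ Set.Icc (-1 : ℝ) 1, ¬ (∃ i t, D.pr i t = z ∧ D.ht i t = h) → q (z, h) ∈ Φ.Y
  hc : ∀ i t, q (D.pr i t, D.ht i t) = c i
  hno : ∀ i, NoSqrt Φ (c i)
  hloc : ∀ i, LocLog Φ (c i) (ρ i)
  hsec : ∀ i t, ∀ O : Set (S × ℝ), IsOpen O → (D.pr i t, D.ht i t) ∈ O →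
    ∃ ε > 0, ∃ w : ℂ → S × ℝ, ContinuousOn w (Metric.ball (c i) ε \ {c i}) ∧
      ∀ x ∈ Metric.ball (c i) ε \ {c i}, w x ∈ O ∧ q (w x) = x

variable {S : Type} [TopologicalSpace S]

/-- `v` is the value (Dehn colour) at the point `z` off the diagram, on the sheet `ζ`. -/
def Conf.VRel (K : Conf S) (z : S) (ζ : Circle) (v : ℤ) : Prop :=
  ∃ ζ' : Circle, Tr K.Φ (seg (fun h => K.q (z, h)) 1 (-1)) (ζ, K.fT (z, ζ))
    (ζ', K.fB (z, ζ') + v)

/-- The two values on the two sides of the diagram near the point `z` (on one sheet). -/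
def Conf.Pair (K : Conf S) (z : S) (a b : ℤ) : Prop :=
  ∃ O : Set S, IsOpen O ∧ z ∈ O ∧ ∃ s : S → Circle, ContinuousOn s O ∧
    (∀ x ∈ O, s x ^ 2 = K.Φ.θ (K.q (x, 1))) ∧
    (∀ x ∈ O, x ∉ K.D.curve → K.VRel x (s x) a ∨ K.VRel x (s x) b) ∧
    (∀ O' : Set S, IsOpen O' → z ∈ O' →
      (∃ x ∈ O ∩ O', x ∉ K.D.curve ∧ K.VRel x (s x) a) ∧
      (∃ x ∈ O ∩ O', x ∉ K.D.curve ∧ K.VRel x (s x) b))

open Set Topology unitInterval

variable {S : Type} [TopologicalSpace S]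

/-- The values of `P` near a crossing (upper strand `i` at `s`, lower strand `j` at `t`) are the
products of the numbers `V1, …, V4` in adjacent quadrants. -/
def QuadAt {S : Type} [TopologicalSpace S] (D : Diagram S) (P : Fin D.m → ℝ → ℤ)
    (i j : Fin D.m) (s t : ℝ) (V1 V2 V3 V4 : ℤ) : Prop :=
  V1 + V4 = V2 + V3 ∧ ∃ η > 0,
    (((∀ u ∈ Set.Ioo s (s + η), P i u = V1 * V4) ∧ (∀ u ∈ Set.Ioo (s - η) s, P i u = V2 * V3)) ∨
     ((∀ u ∈ Set.Ioo s (s + η), P i u = V2 * V3) ∧ (∀ u ∈ Set.Ioo (s - η) s, P i u = V1 * V4))) ∧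
    (((∀ u ∈ Set.Ioo t (t + η), P j u = V1 * V2) ∧ (∀ u ∈ Set.Ioo (t - η) t, P j u = V3 * V4)) ∨
     ((∀ u ∈ Set.Ioo t (t + η), P j u = V3 * V4) ∧ (∀ u ∈ Set.Ioo (t - η) t, P j u = V1 * V2)))

end AltGenus562
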