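import Pool.Agent.Helper562.AltG.DefsAll

noncomputable section

namespace AltGenus562

open Set Topology unitInterval

/-- The direction `z / |z|`. -/
def cdir (z : ℂ) : Circle := Circle.exp (Complex.arg z)

/-- The square root of the direction, with cut along the positive imaginary axis. -/
def hroot (z : ℂ) : Circle := Circle.exp ((Complex.arg (Complex.I * z) - Real.pi / 2) / 2)

/-- The bump around the upward ray from `a`, of width `δ`: `1/2` on the ray, `0` outside of the
strip and in the lower half plane. -/
def bump (a δ : ℝ) (x : ℂ) : ℝ :=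
  if 0 < x.im then (1 / 2) * max 0 (1 - |x.re - a| / min x.im δ) else 0

/-- `∏ dir (x - a_k)`. -/
def thetaP {n : ℕ} (a : Fin n → ℝ) (x : ℂ) : Circle := ∏ k, cdir (x - a k)

/-- `∏ hroot (x - a_k)`. -/
def xiP {n : ℕ} (a : Fin n → ℝ) (x : ℂ) : Circle := ∏ k, hroot (x - a k)

open Classical in
/-- The function `F_k` on the double cover. -/
def FP {n : ℕ} (a : Fin n → ℝ) (δ : ℝ) (k : Fin n) (p : ℂ × Circle) : Circle :=
  if p.2 = xiP a p.1 then ce (bump (a k) δ p.1) else ce (-bump (a k) δ p.1)

end AltGenus562
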