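import Pool.Agent.Helper562.AltG.Defs

noncomputable section

namespace AltGenus562

open Set Topology

/-- The product of the coordinates. -/
def mulP (x : S3) : ℂ := x.1 0 * x.1 1

end AltGenus562
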