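import Pool.Agent.Helper562.AltG.P.F1
import Pool.Agent.Helper562.AltG.P.F2
import Pool.Agent.Helper562.AltG.P.F3

noncomputable section

namespace AltGenus562

open Set Topology unitInterval

/-- The system. -/
def planarSys {n : ℕ} (a : Fin n → ℝ) (δ : ℝ) (hδ : 0 < δ)
    (ha : ∀ j k, j ≠ k → 2 * δ ≤ |a j - a k|) : NSys n where
  Y := {x : ℂ | ∀ k, x ≠ (a k : ℂ)}
  θ := thetaP a
  F := FP a δ
  oY := by
    have : {x : ℂ | ∀ k, x ≠ (a k : ℂ)} = ⋂ k, {(a k : ℂ)}ᶜ := by ext; simp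
    rw [this]
    exact isOpen_iInter_of_finite fun k => isOpen_compl_singleton
  cθ := thetaP_cont a
  cF := fun k => FP_cont a δ hδ ha k
  anti := fun k x hx ζ hζ => FP_anti a δ k x hx ζ hζ

end AltGenus562
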