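import Pool.Agent.Helper562.AltG.P.E7
import Pool.Agent.Helper562.AltG.P.F4
import Pool.Agent.Helper562.AltG.P.F5
import Pool.Agent.Helper562.AltG.P.G1
import Pool.Agent.Helper562.AltG.P.G2

noncomputable section

namespace AltGenus562

open Set Topology unitInterval

/-- Summary: the planar system exists. -/
theorem planar_system {n : ℕ} (a : Fin n → ℝ) (δ : ℝ) (hδ : 0 < δ)
    (ha : ∀ j k, j ≠ k → 2 * δ ≤ |a j - a k|) :
    ∃ Ψ : NSys n, (∀ x, x ∈ Ψ.Y ↔ ∀ k, x ≠ (a k : ℂ)) ∧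
      (∀ k r, NoSqrt (Ψ.comb r) (a k : ℂ)) ∧ (∀ k r, LocLog (Ψ.comb r) (a k : ℂ) (r k)) :=
  ⟨planarSys a δ hδ ha, fun x => Iff.rfl,
    fun k r ε hε => thetaP_noSqrt a δ hδ ha k ε hε,
    fun k r => planar_locLog a δ hδ ha k r⟩

theorem altGenus_torusLink (N : ℕ) : AltGenusAtLeast (torusLink (4 * N + 1)) N := by
  intro S _ g hS φ hφ ⟨D, halt, hcell, h, hh⟩
  set n : ℕ := 4 * N + 1 with hn
  have := hS.t2
  have := hS.compact
  have hcl : IsClosedEmbedding φ := hφ.cont.isClosedEmbedding hφ.inj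
  set a : Fin n → ℝ := fun k => ((k : ℕ) + 1 : ℝ) / (4 * n + 4) with ha
  have hpos : (0 : ℝ) < 4 * n + 4 := by positivity
  set δ : ℝ := 1 / (2 * (4 * n + 4)) with hδ
  have hδ0 : 0 < δ := by positivity
  have hsep : ∀ j k : Fin n, j ≠ k → 2 * δ ≤ |a j - a k| := by
    intro j k hjk
    have h1 : a j - a k = (((j : ℕ) : ℝ) - ((k : ℕ) : ℝ)) / (4 * n + 4) := by
      simp only [ha]; ring
    have h2 : (1 : ℝ) ≤ |((j : ℕ) : ℝ) - ((k : ℕ) : ℝ)| := by
      have h3 : ((j : ℕ) : ℤ) - ((k : ℕ) : ℤ) ≠ 0 := by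
        intro h4
        apply hjk
        apply Fin.ext
        omega
      have h5 : (1 : ℤ) ≤ |((j : ℕ) : ℤ) - ((k : ℕ) : ℤ)| := Int.one_le_abs h3
      exact_mod_cast h5
    rw [h1, abs_div, abs_of_pos hpos]
    have h6 : 2 * δ = 1 / (4 * n + 4) := by
      rw [hδ]; field_simp
    rw [h6]
    gcongr
  have ha0 : ∀ k, 0 < a k := fun k => by simp only [ha]; positivity
  have ha1 : ∀ k, a k < 1 / 2 := by
    intro k
    simp only [ha]
    rw [div_lt_iff₀ hpos]
    have : ((k : ℕ) : ℝ) < n := by exact_mod_cast k.2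
    linarith
  have hinj : Function.Injective a := by
    intro j k hjk
    by_contra hne
    have := hsep j k hne
    rw [hjk, sub_self, abs_zero] at this
    linarith
  obtain ⟨Ψ, hY, hno, hloc⟩ := planar_system a δ hδ0 hsep
  have hle : (-1 : ℝ) ≤ 1 := by norm_num
  set q : S × ℝ → ℂ := fun x => mulP (h.symm (φ (x.1, Set.projIcc (-1) 1 hle x.2))) with hq
  have hqcont : Continuous q := by
    apply mulP_cont.comp
    apply h.symm.continuous.comp
    apply hφ.cont.comp
    exact continuous_fst.prodMk (continuous_projIcc.comp continuous_snd)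
  have hqv : ∀ z t, (ht : t ∈ Set.Icc (-1 : ℝ) 1) → q (z, t) = mulP (h.symm (φ (z, ⟨t, ht⟩))) := by
    intro z t ht
    simp only [hq]
    rw [Set.projIcc_of_mem hle ht]
  have hmem : ∀ x : S3, x ∈ torusLink n ↔ ∃ k, mulP x = (a k : ℂ) := by
    intro x
    rfl
  have hcarr : ∀ z t, (ht : t ∈ Set.Icc (-1 : ℝ) 1) →
      ((∃ k, q (z, t) = (a k : ℂ)) ↔ ∃ i s, D.pr i s = z ∧ D.ht i s = t) := by
    intro z t ht
    rw [hqv z t ht, ← hmem]
    constructor
    · intro hx
      have h1 : φ (z, ⟨t, ht⟩) ∈ φ '' D.carrier := by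
        rw [← hh]
        exact ⟨_, hx, h.apply_symm_apply _⟩
      obtain ⟨p, hp, hp'⟩ := h1
      have := hφ.inj hp'
      subst this
      exact hp
    · intro hx
      have h1 : φ (z, ⟨t, ht⟩) ∈ h '' torusLink n := by
        rw [hh]
        exact ⟨_, hx, rfl⟩
      obtain ⟨x, hx, hx'⟩ := h1
      rw [← hx', h.symm_apply_apply]
      exact hx
  have key := main_abstract Ψ (fun k => (a k : ℂ))
    (fun j k hjk => hinj (Complex.ofReal_injective hjk)) hY hno hloc hS D halt hcell q hqcont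
    (fun z t ht => hcarr z t ht) ?_ ?_
  · omega
  · intro k
    obtain ⟨x, hx⟩ := mulP_surj (a k) (ha0 k) (ha1 k)
    have h1 : h x ∈ φ '' D.carrier := by
      rw [← hh]
      exact ⟨x, (hmem x).2 ⟨k, hx⟩, rfl⟩
    obtain ⟨⟨z, t, ht⟩, hp, hp'⟩ := h1
    refine ⟨z, t, ht, ?_⟩
    rw [hqv z t ht, hp', h.symm_apply_apply]
    exact hx
  · intro i t k hk O hO hmemO
    have hti := D.ht_mem i t
    have htI : D.ht i t ∈ Set.Icc (-1 : ℝ) 1 := ⟨hti.1.le, hti.2.le⟩
    -- open sets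
    set W : Set (S × Set.Icc (-1 : ℝ) 1) :=
      {p | (p.1, (p.2 : ℝ)) ∈ O ∧ -1 < (p.2 : ℝ) ∧ (p.2 : ℝ) < 1} with hW
    have hWo : IsOpen W := by
      apply IsOpen.inter
      · exact hO.preimage (continuous_fst.prodMk (continuous_subtype_val.comp continuous_snd))
      · apply IsOpen.inter
        · exact isOpen_lt continuous_const (continuous_subtype_val.comp continuous_snd)
        · exact isOpen_lt (continuous_subtype_val.comp continuous_snd) continuous_const
    have hVo : IsOpen (φ '' W) := by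
      have h1 : φ '' W = (φ '' {x | -1 < (x.2 : ℝ) ∧ (x.2 : ℝ) < 1}) ∩ (φ '' Wᶜ)ᶜ := by
        ext y
        constructor
        · rintro ⟨p, hp, rfl⟩
          refine ⟨⟨p, hp.2, rfl⟩, ?_⟩
          rintro ⟨p', hp', h2⟩
          exact hp' (by rw [hφ.inj h2]; exact hp)
        · rintro ⟨⟨p, hp, rfl⟩, h2⟩
          refine ⟨p, ?_, rfl⟩
          by_contra h3
          exact h2 ⟨p, h3, rfl⟩
      rw [h1]
      exact hφ.isOpen.inter (hcl.isClosedMap _ hWo.isClosed_compl).isOpen_compl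
    set x0 : S3 := h.symm (φ (D.pr i t, ⟨D.ht i t, htI⟩)) with hx0
    have hx0P : mulP x0 = (a k : ℂ) := by
      rw [← hk, hqv _ _ htI]
    obtain ⟨ε, hε, w, hw, hw2⟩ := mulP_section (a k) (ha0 k) (ha1 k) x0 hx0P
      (h ⁻¹' (φ '' W)) (hVo.preimage h.continuous) (by
        show h x0 ∈ φ '' W
        rw [hx0, h.apply_symm_apply]
        exact ⟨_, ⟨hmemO, hti⟩, rfl⟩)
    have hw3 : ∀ y ∈ Metric.ball (a k : ℂ) ε, ∃ p ∈ W, φ p = h (w y) := fun y hy => (hw2 y hy).1
    classical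
    set w' : ℂ → S × Set.Icc (-1 : ℝ) 1 := fun y =>
      if hy : y ∈ Metric.ball (a k : ℂ) ε then (hw3 y hy).choose else (D.pr i t, ⟨D.ht i t, htI⟩)
      with hw'
    have hw'1 : ∀ y ∈ Metric.ball (a k : ℂ) ε, w' y ∈ W ∧ φ (w' y) = h (w y) := by
      intro y hy
      simp only [hw', dif_pos hy]
      exact (hw3 y hy).choose_spec
    have hw'c : ContinuousOn w' (Metric.ball (a k : ℂ) ε) := by
      rw [hcl.isEmbedding.continuousOn_iff]
      refine (h.continuous.comp_continuousOn hw).congr ?_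
      intro y hy
      exact (hw'1 y hy).2
    refine ⟨ε, hε, fun y => ((w' y).1, ((w' y).2 : ℝ)), ?_, ?_⟩
    · have : ContinuousOn (fun y => ((w' y).1, ((w' y).2 : ℝ))) (Metric.ball (a k : ℂ) ε) := by
        have hc : Continuous (fun p : S × Set.Icc (-1 : ℝ) 1 => (p.1, (p.2 : ℝ))) :=
          continuous_fst.prodMk (continuous_subtype_val.comp continuous_snd)
        exact hc.comp_continuousOn hw'c
      exact this.mono Set.sdiff_subset
    · intro y hy
      have hy' := hw'1 y hy.1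
      refine ⟨hy'.1.1, ?_⟩
      rw [hqv _ _ (w' y).2.2]
      have : φ ((w' y).1, ⟨((w' y).2 : ℝ), (w' y).2.2⟩) = h (w y) := hy'.2
      rw [this, h.symm_apply_apply]
      exact (hw2 y hy.1).2

/-- The alternating genus of links is unbounded. -/
theorem unbounded (N : ℕ) : ∃ L : Set S3, IsLink L ∧ AltGenusAtLeast L N :=
  ⟨torusLink (4 * N + 1), isLink_torusLink _ (Nat.succ_pos _), altGenus_torusLink N⟩

end AltGenus562
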